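import Mathlib
import Pool.Agent.H932R3.Collide

set_option autoImplicit false

/-! Translation of the germ of a curve to the origin. -/

namespace Pool.Agent.L7h88.CG

open Polynomial Pool.Agent.H932R2 Pool.Agent.H932R3

variable {K : Type*} [Field K]

/-- the ideal of the germ of the curve `y = γ(x)` at `x = c` -/
noncomputable def gJ (r m : ℕ) (c : K) (γ : K[X]) : Ideal K[X][X] :=
  (Ideal.span {X - C γ, C ((X - C c) ^ r)}) ^ m

theorem gJ_eq (r m : ℕ) (c : K) (γ : K[X]) :
    gJ r m c γ = cIdeal (fun _ : Fin r => c) γ m := by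
  unfold gJ cIdeal
  rw [rootPoly_const]

/-- the forms of degree `d` in the ideal -/
noncomputable def gF (r m : ℕ) (c : K) (γ : K[X]) (d : ℕ) : Submodule K (MvPolynomial (Fin 3) K) :=
  MvPolynomial.homogeneousSubmodule (Fin 3) K d ⊓
    (Submodule.restrictScalars K (gJ r m c γ)).comap (deh K).toLinearMap

theorem sh_split (c : K) (γ : K[X]) (f : K[X][X]) :
    sh 0 (γ.comp (X + C c)) (sh c 0 f) = sh c γ f := by
  have h : (sh 0 (γ.comp (X + C c))).comp (sh c 0) = sh c γ := by
    refine ringHom_ext' (ringHom_ext' ?_ ?_) ?_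
    · ext a
      simp [sh_C]
    · simp [sh_C]
    · simp [sh_X]
  exact congrArg (fun φ : K[X][X] →+* K[X][X] => φ f) h

theorem mem_gJ_iff {r m : ℕ} {c : K} {γ : K[X]} {f : K[X][X]} :
    f ∈ gJ r m c γ ↔ sh c 0 f ∈ gJ r m 0 (γ.comp (X + C c)) := by
  rw [gJ_eq, gJ_eq, mem_cIdeal_iff, mem_cIdeal_iff, sh_split]

/-- the translation of the forms -/
noncomputable def th (c : K) : MvPolynomial (Fin 3) K →ₐ[K] MvPolynomial (Fin 3) K :=
  MvPolynomial.aeval ![MvPolynomial.X 0 + MvPolynomial.C c * MvPolynomial.X 2,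
    MvPolynomial.X 1, MvPolynomial.X 2]

theorem th_th (c : K) (P : MvPolynomial (Fin 3) K) : th (-c) (th c P) = P := by
  have h : (th (-c)).comp (th c) = AlgHom.id K _ := by
    ext i
    fin_cases i <;> simp [th]
  exact congrArg (fun φ : MvPolynomial (Fin 3) K →ₐ[K] MvPolynomial (Fin 3) K => φ P) h

theorem deh_th (c : K) (P : MvPolynomial (Fin 3) K) : deh K (th c P) = sh c 0 (deh K P) := by
  have h : ((deh K).comp (th c) : MvPolynomial (Fin 3) K →+* K[X][X]) =
      (sh c 0).comp (deh K : MvPolynomial (Fin 3) K →+* K[X][X]) := by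
    refine MvPolynomial.ringHom_ext (fun a => ?_) (fun i => ?_)
    · have h1 : (MvPolynomial.C a : MvPolynomial (Fin 3) K) = algebraMap K _ a := rfl
      simp only [RingHom.coe_comp, Function.comp_apply, RingHom.coe_coe]
      rw [h1, AlgHom.commutes, AlgHom.commutes]
      have h2 : (algebraMap K K[X][X]) a = C (C a) := rfl
      rw [h2, sh_C, C_comp]
    · fin_cases i <;> simp [th, deh, sh_C, sh_X]
  exact congrArg (fun φ : MvPolynomial (Fin 3) K →+* K[X][X] => φ P) h

theorem th_homog (c : K) {d : ℕ} {P : MvPolynomial (Fin 3) K}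
    (hP : P ∈ MvPolynomial.homogeneousSubmodule (Fin 3) K d) :
    th c P ∈ MvPolynomial.homogeneousSubmodule (Fin 3) K d := by
  rw [MvPolynomial.mem_homogeneousSubmodule] at hP ⊢
  have h := hP.aeval (n := 1) (![MvPolynomial.X 0 + MvPolynomial.C c * MvPolynomial.X 2,
    MvPolynomial.X 1, MvPolynomial.X 2] : Fin 3 → MvPolynomial (Fin 3) K) (by
      intro i
      fin_cases i
      · refine (MvPolynomial.isHomogeneous_X K _).add ?_
        have := (MvPolynomial.isHomogeneous_C (Fin 3) c).mul (MvPolynomial.isHomogeneous_X K (2 : Fin 3))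
        simpa using this
      · exact MvPolynomial.isHomogeneous_X K _
      · exact MvPolynomial.isHomogeneous_X K _)
  rw [one_mul] at h
  exact h

theorem mem_gF_iff {r m d : ℕ} {c : K} {γ : K[X]} {P : MvPolynomial (Fin 3) K} :
    P ∈ gF r m c γ d ↔ th c P ∈ gF r m 0 (γ.comp (X + C c)) d := by
  unfold gF
  rw [Submodule.mem_inf, Submodule.mem_inf, Submodule.mem_comap, Submodule.mem_comap,
    Submodule.restrictScalars_mem, Submodule.restrictScalars_mem]
  have h1 : deh K P ∈ gJ r m c γ ↔ deh K (th c P) ∈ gJ r m 0 (γ.comp (X + C c)) := by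
    rw [deh_th, mem_gJ_iff]
  constructor
  · rintro ⟨h2, h3⟩
    exact ⟨th_homog c h2, h1.1 h3⟩
  · rintro ⟨h2, h3⟩
    refine ⟨?_, h1.2 h3⟩
    have := th_homog (-c) h2
    rwa [th_th] at this

theorem finrank_gF (r m : ℕ) (c : K) (γ : K[X]) (d : ℕ) :
    Module.finrank K ↥(gF r m c γ d) = Module.finrank K ↥(gF r m 0 (γ.comp (X + C c)) d) := by
  have h2 : ∀ Q : MvPolynomial (Fin 3) K, th c (th (-c) Q) = Q := by
    intro Q
    have := th_th (-c) Q
    rwa [neg_neg] at this
  refine LinearEquiv.finrank_eq (LinearEquiv.ofBijective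
    { toFun := fun P => ⟨th c P.1, mem_gF_iff.1 P.2⟩
      map_add' := fun F G => Subtype.ext (map_add _ _ _)
      map_smul' := fun a F => Subtype.ext (map_smul _ _ _) } ⟨?_, ?_⟩)
  · intro F G hFG
    have h1 : th c F.1 = th c G.1 := congrArg Subtype.val hFG
    have h3 := congrArg (th (-c)) h1
    rw [th_th, th_th] at h3
    exact Subtype.ext h3
  · rintro ⟨Q, hQ⟩
    refine ⟨⟨th (-c) Q, mem_gF_iff.2 (by rw [h2]; exact hQ)⟩, Subtype.ext (h2 Q)⟩

theorem jetDim_iff {r m : ℕ} {c : K} {a : Fin r → K} {d : ℕ} :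
    JetDim r m c a d ↔ Module.finrank K ↥(gF r m c (∑ j : Fin r, C (a j) * X ^ (j : ℕ)) d) =
      Nat.choose (d + 2) 2 - r * Nat.choose (m + 1) 2 := by
  unfold JetDim gF
  rw [show jetIdeal m c a = gJ r m c (∑ j : Fin r, C (a j) * X ^ (j : ℕ)) from rfl]

/-- the centred germ -/
noncomputable def cen {r : ℕ} (c : K) (b : Fin r → K) : K[X] := ∑ l : Fin r, C (b l) * (X - C c) ^ (l : ℕ)

theorem cen_comp {r : ℕ} (c : K) (b : Fin r → K) :
    (cen c b).comp (X + C c) = ∑ l : Fin r, C (b l) * X ^ (l : ℕ) := by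
  unfold cen
  rw [Polynomial.sum_comp]
  refine Finset.sum_congr rfl fun l _ => ?_
  rw [mul_comp, C_comp, pow_comp, sub_comp, X_comp, C_comp, add_sub_cancel_right]

/-- the dimension for a centred germ -/
theorem cen_iff {r m : ℕ} {c : K} {b : Fin r → K} {d : ℕ} :
    Module.finrank K ↥(gF r m c (cen c b) d) = Nat.choose (d + 2) 2 - r * Nat.choose (m + 1) 2 ↔
      JetDim r m 0 b d := by
  rw [finrank_gF, cen_comp, ← jetDim_iff]

/-- a germ over a field can be moved to the origin -/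
theorem exists_origin {r m : ℕ} (c : K) (a : Fin r → K) :
    ∃ b : Fin r → K, ∀ d, JetDim r m c a d → JetDim r m 0 b d := by
  obtain ⟨g, hg⟩ : ∃ g : K[X], g = (∑ j : Fin r, C (a j) * X ^ (j : ℕ)).comp (X + C c) := ⟨_, rfl⟩
  rcases Nat.eq_zero_or_pos r with h0 | hr
  · subst h0
    refine ⟨a, fun d h => ?_⟩
    rw [jetDim_iff] at h ⊢
    rw [← h, finrank_gF (K := K) 0 m c, Fin.sum_univ_zero, zero_comp]
  have hdeg : g.natDegree < r := by
    rw [hg, natDegree_comp, natDegree_X_add_C, mul_one]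
    have h1 : (∑ j : Fin r, C (a j) * X ^ (j : ℕ)).degree < ((r : ℕ) : WithBot ℕ) := by
      refine (degree_sum_le _ _).trans_lt ?_
      rw [Finset.sup_lt_iff (by exact_mod_cast WithBot.bot_lt_coe r)]
      intro j _
      refine (degree_C_mul_X_pow_le _ _).trans_lt ?_
      exact_mod_cast j.2
    by_cases h2 : (∑ j : Fin r, C (a j) * X ^ (j : ℕ) : K[X]) = 0
    · rw [h2, natDegree_zero]; exact hr
    · exact (natDegree_lt_iff_degree_lt h2).2 h1
  refine ⟨fun j => g.coeff j, fun d h => ?_⟩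
  have hsum : ∑ j : Fin r, C (g.coeff j) * X ^ (j : ℕ) = g := by
    conv_rhs => rw [as_sum_range_C_mul_X_pow' g hdeg]
    exact (Finset.sum_range fun j => C (g.coeff j) * X ^ j).symm
  rw [jetDim_iff] at h ⊢
  rw [hsum, ← h, finrank_gF (K := K) r m c, ← hg]

end Pool.Agent.L7h88.CG
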