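import Mathlib
import Pool.Agent.L7h88.CG.Trans
import Pool.Agent.Y210.EF.Ent
import Pool.Agent.Y210.EF.Nrm

set_option autoImplicit false

/-! The matrix of the conditions imposed by the germ of a curve at the origin, with entries in the
polynomials over the integers, and its minors, over every field. -/

namespace Pool.Agent.L7h88.CG

open Polynomial Pool.Agent.H932R2 Pool.Agent.H932R3 Pool.Agent.Y210.EF

/-- the generic germ -/
noncomputable def gZ (r : ℕ) : (MvPolynomial (Fin r) ℤ)[X] :=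
  ∑ j : Fin r, C (MvPolynomial.X j) * X ^ (j : ℕ)

/-- the entries of the matrix of the conditions -/
noncomputable def ent0 (r : ℕ) (p s : ℕ × ℕ) : MvPolynomial (Fin r) ℤ :=
  ((sh 0 (gZ r) (C (X ^ s.1) * X ^ s.2)).coeff p.2).coeff p.1

variable {K : Type*} [Field K]

/-- evaluation at a germ -/
noncomputable def ev0 {r : ℕ} (b : Fin r → K) : MvPolynomial (Fin r) ℤ →+* K :=
  MvPolynomial.eval₂Hom (Int.castRingHom K) b

theorem ev0_ent {r : ℕ} (b : Fin r → K) (p s : ℕ × ℕ) :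
    ev0 b (ent0 r p s) =
      ((sh 0 (∑ j : Fin r, C (b j) * X ^ (j : ℕ)) (mon K s)).coeff p.2).coeff p.1 := by
  have h := map_sh (ev0 b) (0 : MvPolynomial (Fin r) ℤ) (gZ r) (C (X ^ s.1) * X ^ s.2)
  have h1 : (C (X ^ s.1) * X ^ s.2 : (MvPolynomial (Fin r) ℤ)[X][X]).map (mapRingHom (ev0 b)) =
      mon K s := by
    simp [mon]
  have h3 : (gZ r).map (ev0 b) = ∑ j : Fin r, C (b j) * X ^ (j : ℕ) := by
    unfold gZ
    rw [Polynomial.map_sum]
    refine Finset.sum_congr rfl fun j _ => ?_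
    rw [Polynomial.map_mul, map_C, Polynomial.map_pow, map_X]
    simp [ev0]
  rw [h1, map_zero, h3] at h
  rw [← h, coeff_map, coe_mapRingHom, coeff_map]
  rfl

theorem pow_bounds (r k : ℕ) : ∀ i : ℕ, (((gZ r) ^ k).coeff i).totalDegree ≤ k ∧
    l1 (((gZ r) ^ k).coeff i) ≤ r ^ k := by
  induction k with
  | zero =>
    intro i
    rw [pow_zero, coeff_one, pow_zero]
    split_ifs
    · exact ⟨by simp, l1_one⟩
    · exact ⟨by simp, by rw [l1_zero]; norm_num⟩
  | succ k ih =>
    intro i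
    have h1 : ((gZ r) ^ (k + 1)).coeff i =
        ∑ j : Fin r, (if (j : ℕ) ≤ i then MvPolynomial.X j * ((gZ r) ^ k).coeff (i - j) else 0) := by
      rw [pow_succ]
      conv_lhs => rw [gZ]
      rw [Finset.mul_sum, finsetSum_coeff]
      refine Finset.sum_congr rfl fun j _ => ?_
      rw [← mul_assoc, coeff_mul_X_pow']
      split_ifs
      · rw [coeff_mul_C, mul_comm]
        rfl
      · rfl
    rw [h1]
    constructor
    · refine MvPolynomial.totalDegree_finsetSum_le fun j _ => ?_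
      split_ifs
      · refine (MvPolynomial.totalDegree_mul _ _).trans ?_
        rw [MvPolynomial.totalDegree_X]
        have := (ih (i - j)).1
        omega
      · simp
    · refine (l1_sum _ _).trans ?_
      refine (Finset.sum_le_card_nsmul _ _ (r ^ k) fun j _ => ?_).trans ?_
      · split_ifs
        · refine (l1_mul _ _).trans ?_
          have h2 := l1_X_pow (σ := Fin r) j 1
          rw [pow_one] at h2
          calc _ ≤ 1 * r ^ k := Nat.mul_le_mul h2 (ih (i - j)).2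
            _ = r ^ k := one_mul _
        · rw [l1_zero]; exact Nat.zero_le _
      · rw [Finset.card_univ, Fintype.card_fin, smul_eq_mul, pow_succ, mul_comm]

theorem ent0_eq (r : ℕ) (p s : ℕ × ℕ) :
    ent0 r p s = if s.1 ≤ p.1 then ((gZ r) ^ (s.2 - p.2)).coeff (p.1 - s.1) *
      ((s.2.choose p.2 : ℕ) : MvPolynomial (Fin r) ℤ) else 0 := by
  unfold ent0
  have h1 : sh (0 : MvPolynomial (Fin r) ℤ) (gZ r) (C (X ^ s.1) * X ^ s.2) =
      C (X ^ s.1) * (X + C (gZ r)) ^ s.2 := by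
    have h2 := map_pow (sh (0 : MvPolynomial (Fin r) ℤ) (gZ r)) (X : (MvPolynomial (Fin r) ℤ)[X][X]) s.2
    rw [map_mul, h2, sh_X, sh_C, map_zero, add_zero, comp_X, comp_X]
  rw [h1, coeff_C_mul, coeff_X_add_C_pow, ← mul_assoc, coeff_mul_natCast]
  rw [X_pow_mul, coeff_mul_X_pow']
  split_ifs
  · rfl
  · rw [zero_mul]

theorem deg_ent0 (r : ℕ) (p s : ℕ × ℕ) : (ent0 r p s).totalDegree ≤ s.1 + s.2 := by
  rw [ent0_eq]
  split_ifs
  · refine (MvPolynomial.totalDegree_mul _ _).trans ?_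
    have h1 := (pow_bounds r (s.2 - p.2) (p.1 - s.1)).1
    have h2 : ((s.2.choose p.2 : ℕ) : MvPolynomial (Fin r) ℤ).totalDegree = 0 := by
      rw [← map_natCast (MvPolynomial.C : ℤ →+* MvPolynomial (Fin r) ℤ)]
      exact MvPolynomial.totalDegree_C _
    rw [h2]
    omega
  · simp

theorem l1_ent0 {r : ℕ} (hr : 1 ≤ r) (p s : ℕ × ℕ) : l1 (ent0 r p s) ≤ (2 * r) ^ (s.1 + s.2) := by
  rw [ent0_eq]
  split_ifs
  · refine (l1_mul _ _).trans ?_
    have h1 := (pow_bounds r (s.2 - p.2) (p.1 - s.1)).2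
    have h2 : l1 ((s.2.choose p.2 : ℕ) : MvPolynomial (Fin r) ℤ) ≤ 2 ^ s.2 := by
      rw [← map_natCast (MvPolynomial.C : ℤ →+* MvPolynomial (Fin r) ℤ)]
      refine (l1_C _).trans ?_
      rw [Int.natAbs_natCast]
      exact Nat.choose_le_two_pow _ _
    calc _ ≤ r ^ (s.2 - p.2) * 2 ^ s.2 := Nat.mul_le_mul h1 h2
      _ ≤ r ^ (s.1 + s.2) * 2 ^ (s.1 + s.2) := Nat.mul_le_mul
          (Nat.pow_le_pow_right hr (by omega)) (Nat.pow_le_pow_right (by norm_num) (by omega))
      _ = (2 * r) ^ (s.1 + s.2) := by rw [← mul_pow, mul_comm]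
  · rw [l1_zero]; exact Nat.zero_le _

/-- the conditions as a linear map on the monomials -/
noncomputable def LL0 {r : ℕ} (m : ℕ) (M : Finset (ℕ × ℕ)) (b : Fin r → K) :
    (Fin M.card → K) →ₗ[K] (EE r m → K) :=
  (condMap r m 0 (∑ j : Fin r, C (b j) * X ^ (j : ℕ))).comp (coordMap K M)

/-- the matrix of the conditions -/
noncomputable def Am0 {r : ℕ} (m : ℕ) (M : Finset (ℕ × ℕ)) (b : Fin r → K) :
    Matrix (EE r m) (Fin M.card) K := fun p j => ev0 b (ent0 r p.1 (enumM M j))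

theorem LL0_eq {r : ℕ} (m : ℕ) (M : Finset (ℕ × ℕ)) (b : Fin r → K) :
    LL0 m M b = (Am0 m M b).mulVecLin := by
  refine LinearMap.ext fun v => funext fun p => ?_
  rw [LL0, LinearMap.comp_apply, coordMap_apply, map_sum, Finset.sum_apply,
    Matrix.mulVecLin_apply, Matrix.mulVec, dotProduct]
  refine Finset.sum_congr rfl fun j _ => ?_
  rw [map_smul, Pi.smul_apply, smul_eq_mul, mul_comm]
  congr 1
  rw [Am0, ev0_ent]
  rfl

theorem jet_eq {r : ℕ} (m : ℕ) (b : Fin r → K) :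
    jetIdeal m 0 b = cIdeal (fun _ : Fin r => (0 : K)) (∑ j : Fin r, C (b j) * X ^ (j : ℕ)) m :=
  gJ_eq r m 0 _

theorem finrank_ker_LL0 {r : ℕ} (m : ℕ) (M : Finset (ℕ × ℕ)) (b : Fin r → K) :
    Module.finrank K ↥(LinearMap.ker (LL0 m M b)) =
      Module.finrank K ↥(mspan K (↑M : Set (ℕ × ℕ)) ⊓
        Submodule.restrictScalars K (jetIdeal m 0 b)) := by
  refine LinearEquiv.finrank_eq (LinearEquiv.ofBijective
    { toFun := fun f => ⟨coordMap K M f.1, (mem_mspan_iff M _).2 ⟨f.1, rfl⟩, by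
        show _ ∈ jetIdeal m 0 b
        rw [jet_eq]
        exact mem_cIdeal_iff'.2 f.2⟩
      map_add' := fun f g => Subtype.ext (map_add _ _ _)
      map_smul' := fun a f => Subtype.ext (map_smul _ _ _) } ⟨?_, ?_⟩)
  · intro f g hfg
    exact Subtype.ext (coordMap_inj M (congrArg Subtype.val hfg))
  · rintro ⟨f, hf, hf'⟩
    obtain ⟨a, rfl⟩ := (mem_mspan_iff M f).1 hf
    have hf'' : coordMap K M a ∈ jetIdeal m 0 b := hf'
    rw [jet_eq] at hf''
    exact ⟨⟨a, mem_cIdeal_iff'.1 hf''⟩, rfl⟩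

/-- the rank of the matrix, if the dimension is the expected one -/
theorem rank_Am0 {r m : ℕ} {b : Fin r → K} {d : ℕ} (h : JetDim r m 0 b d) :
    (Am0 m (Tfin d) b).rank = min ((d + 2).choose 2) (r * (m + 1).choose 2) := by
  classical
  have h1 : Module.finrank K ↥(LinearMap.ker (LL0 m (Tfin d) b)) =
      (d + 2).choose 2 - r * (m + 1).choose 2 := by
    rw [← h, finrank_forms (K := K) (d := d) _ (Submodule.restrictScalars K (jetIdeal m 0 b))
      (fun F _ => Iff.rfl), ← coe_Tfin]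
    exact finrank_ker_LL0 m (Tfin d) _
  have h2 := LinearMap.finrank_range_add_finrank_ker (LL0 m (Tfin d) b)
  rw [h1, Module.finrank_fin_fun] at h2
  have h3 := card_T d
  rw [Matrix.rank, ← LL0_eq]
  have h4 : Module.finrank K ↥(LinearMap.range (LL0 m (Tfin d) b)) ≤ r * (m + 1).choose 2 := by
    refine (Submodule.finrank_le _).trans ?_
    rw [Module.finrank_fintype_fun_eq_card, Fintype.card_coe, card_EE_eq']
  omega

/-- a nonzero minor gives the rank in the sense of the library -/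
theorem rk_of_minor0 {r m : ℕ} {b : Fin r → K} {M : Finset (ℕ × ℕ)} {k : ℕ}
    (f : Fin k → EE r m) (g : Fin k → Fin M.card)
    (h : ev0 b (Matrix.of fun i j => ent0 r (f i).1 (enumM M (g j))).det ≠ 0) :
    RkI (jetIdeal m 0 b) (↑M : Set (ℕ × ℕ)) k := by
  refine ⟨fun j => mon K (enumM M (g j)), fun j => Submodule.subset_span
    ⟨_, enumM_mem M (g j), rfl⟩, fun c hc => ?_⟩
  rw [jet_eq, mem_cIdeal_iff'] at hc
  rw [RingHom.map_det] at h
  have h1 : ((ev0 b).mapMatrix
      (Matrix.of fun i j => ent0 r (f i).1 (enumM M (g j)))).mulVec c = 0 := by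
    funext i
    have h2 := congrFun hc (f i)
    rw [map_sum, Finset.sum_apply] at h2
    rw [Matrix.mulVec, dotProduct, Pi.zero_apply]
    rw [Pi.zero_apply] at h2
    rw [← h2]
    refine Finset.sum_congr rfl fun j _ => ?_
    rw [map_smul, Pi.smul_apply, smul_eq_mul, mul_comm]
    congr 1
    rw [RingHom.mapMatrix_apply, Matrix.map_apply, Matrix.of_apply, ev0_ent]
    rfl
  exact fun j => congrFun (Matrix.eq_zero_of_mulVec_eq_zero h h1) j

end Pool.Agent.L7h88.CG
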