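import Mathlib
import Pool.Agent.L7h88.CG.CEnt
import Pool.Agent.Y210.EF.Spread

set_option autoImplicit false

/-! From one germ over one field to all germs outside a hypersurface, over all fields. -/

namespace Pool.Agent.L7h88.CG

open Polynomial Pool.Agent.H932R2 Pool.Agent.H932R3 Pool.Agent.Y210.EF

universe u

/-- the number of conditions -/
def cn (r m : ℕ) : ℕ := r * (m + 1).choose 2

/-- one degree -/
theorem one_degree0 {K : Type*} [Field K] {r m : ℕ} (hr : 1 ≤ r) {b : Fin r → K} {d : ℕ}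
    (h : JetDim r m 0 b d) :
    ∃ F : MvPolynomial (Fin r) ℤ, F ≠ 0 ∧
      F.totalDegree ≤ min ((d + 2).choose 2) (cn r m) * d ∧
      l1 F ≤ (min ((d + 2).choose 2) (cn r m)).factorial *
        ((2 * r) ^ d) ^ (min ((d + 2).choose 2) (cn r m)) ∧
      ∀ (L : Type u) [Field L] (b' : Fin r → L), ev0 b' F ≠ 0 →
        RkI (jetIdeal m 0 b') (↑(Tfin d) : Set (ℕ × ℕ)) (min ((d + 2).choose 2) (cn r m)) := by
  classical
  have hrk : (Am0 m (Tfin d) b).rank = min ((d + 2).choose 2) (cn r m) := rank_Am0 h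
  have key : ∀ k : ℕ, (Am0 m (Tfin d) b).rank = k →
      ∃ (f : Fin k → EE r m) (g : Fin k → Fin (Tfin d).card),
        ((Am0 m (Tfin d) b).submatrix f g).det ≠ 0 := by
    rintro _ rfl
    exact exists_minor _
  obtain ⟨f, g, hfg⟩ := key _ hrk
  have hb : ∀ j, (enumM (Tfin d) (g j)).1 + (enumM (Tfin d) (g j)).2 ≤ d := fun j =>
    mem_T (enumM_mem _ _)
  have hev : ev0 b (Matrix.of fun i j => ent0 r (f i).1 (enumM (Tfin d) (g j))).det =
      ((Am0 m (Tfin d) b).submatrix f g).det := by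
    rw [RingHom.map_det]
    rfl
  refine ⟨(Matrix.of fun i j => ent0 r (f i).1 (enumM (Tfin d) (g j))).det, ?_, ?_, ?_, ?_⟩
  · intro h0
    apply hfg
    rw [← hev, h0, map_zero]
  · exact deg_det _ d fun i j => (deg_ent0 _ _ _).trans (hb j)
  · exact l1_det _ ((2 * r) ^ d) fun i j =>
      (l1_ent0 hr _ _).trans (Nat.pow_le_pow_right (by omega) (hb j))
  · intro L _ b' hb'
    exact rk_of_minor0 f g hb'

/-- the dimensions in the degrees `d ≤ e` and `f ≤ d` from the ranks -/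
theorem jet_of_rk {L : Type*} [Field L] {r m : ℕ} {b : Fin r → L} {e f : ℕ}
    (h2 : RkI (jetIdeal m 0 b) (↑(Tfin e) : Set (ℕ × ℕ)) ((e + 2).choose 2))
    (h3 : RkI (jetIdeal m 0 b) (↑(Tfin f) : Set (ℕ × ℕ)) (cn r m))
    (d : ℕ) (hd : d ≤ e ∨ f ≤ d) : JetDim r m 0 b d := by
  rcases hd with h | h
  · rw [coe_Tfin, ← card_T] at h2
    exact jet_full h2 d h
  · rw [coe_Tfin] at h3
    exact jet_indep h3 d h

/-- **two degrees** -/
theorem spread0 {K : Type*} [Field K] {r m : ℕ} (hr : 1 ≤ r) {b b₁ : Fin r → K} {e f : ℕ}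
    (he : JetDim r m 0 b e) (hf : JetDim r m 0 b₁ f) (h1 : (e + 2).choose 2 ≤ cn r m)
    (h2 : cn r m ≤ (f + 2).choose 2) :
    ∃ F : MvPolynomial (Fin r) ℤ, F ≠ 0 ∧
      F.totalDegree ≤ cn r m * (e + f) ∧
      l1 F ≤ (cn r m).factorial ^ 2 * (2 * r) ^ (cn r m * (e + f)) ∧
      ∀ (L : Type u) [Field L] (b' : Fin r → L), ev0 b' F ≠ 0 →
        ∀ d : ℕ, d ≤ e ∨ f ≤ d → JetDim r m 0 b' d := by
  obtain ⟨F1, a1, a2, a3, a4⟩ := one_degree0 hr he
  obtain ⟨F2, b1, b2, b3, b4⟩ := one_degree0 hr hf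
  rw [min_eq_left h1] at a2 a3 a4
  rw [min_eq_right h2] at b2 b3 b4
  refine ⟨F1 * F2, mul_ne_zero a1 b1, ?_, ?_, fun L _ Q hQ d hd => ?_⟩
  · refine (MvPolynomial.totalDegree_mul _ _).trans ?_
    rw [mul_add]
    exact Nat.add_le_add (a2.trans (Nat.mul_le_mul_right _ h1)) b2
  · refine (l1_mul _ _).trans ?_
    have h3 : l1 F1 ≤ (cn r m).factorial * (2 * r) ^ (cn r m * e) := by
      refine a3.trans (Nat.mul_le_mul (Nat.factorial_le h1) ?_)
      rw [← pow_mul]
      exact Nat.pow_le_pow_right (by omega) (by rw [mul_comm]; exact Nat.mul_le_mul_right _ h1)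
    have h4 : l1 F2 ≤ (cn r m).factorial * (2 * r) ^ (cn r m * f) := by
      refine b3.trans (Nat.mul_le_mul le_rfl ?_)
      rw [← pow_mul, mul_comm f (cn r m)]
    refine (Nat.mul_le_mul h3 h4).trans (le_of_eq ?_)
    rw [mul_add, pow_add]
    ring
  · rw [map_mul] at hQ
    exact jet_of_rk (a4 L Q (left_ne_zero_of_mul hQ)) (b4 L Q (right_ne_zero_of_mul hQ)) d hd

/-- **all degrees but at most one** -/
theorem spread_all0 {K : Type*} [Field K] {r m : ℕ} (hr : 1 ≤ r)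
    (hc : 3 ≤ cn r m) (A : Set ℕ) (hA : A = ∅ ∨ ∃ d₀, A = {d₀})
    (h : ∀ d, d ∉ A → ∃ b : Fin r → K, JetDim r m 0 b d) :
    ∃ F : MvPolynomial (Fin r) ℤ, F ≠ 0 ∧
      F.totalDegree ≤ 2 * cn r m * Nat.sqrt (2 * cn r m) ∧
      l1 F ≤ (cn r m).factorial ^ 2 * (2 * r) ^ (2 * cn r m * Nat.sqrt (2 * cn r m)) ∧
      ∀ (L : Type u) [Field L] (b' : Fin r → L), ev0 b' F ≠ 0 →
        ∀ d : ℕ, d ∉ A → JetDim r m 0 b' d := by
  obtain ⟨e, h1, h2, h3, h4⟩ := exists_crit hc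
  obtain ⟨s, hs⟩ : ∃ s, s = Nat.sqrt (2 * cn r m) := ⟨_, rfl⟩
  rw [← hs] at h4 ⊢
  have hmono : ∀ a b : ℕ, a ≤ b → (a + 2).choose 2 ≤ (b + 2).choose 2 := fun a b hab =>
    Nat.choose_le_choose 2 (by omega)
  -- the two degrees
  have key : ∃ e' f' : ℕ, e' ∉ A ∧ f' ∉ A ∧ (e' + 2).choose 2 ≤ cn r m ∧ cn r m ≤ (f' + 2).choose 2 ∧
      e' + f' ≤ 2 * s ∧ ∀ d, d ∉ A → d ≤ e' ∨ f' ≤ d := by
    by_cases he : e ∈ A
    · have hA1 : A = {e} := by
        rcases hA with hA | ⟨d₀, hA⟩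
        · rw [hA] at he; exact absurd he (by simp)
        · rw [hA] at he ⊢
          rw [Set.mem_singleton_iff] at he
          rw [he]
      refine ⟨e - 1, e + 1, ?_, ?_, (hmono _ _ (by omega)).trans h2, h3, by omega, ?_⟩
      · rw [hA1, Set.mem_singleton_iff]; omega
      · rw [hA1, Set.mem_singleton_iff]; omega
      · intro d hd
        rw [hA1, Set.mem_singleton_iff] at hd
        omega
    · by_cases he1 : e + 1 ∈ A
      · have hA1 : A = {e + 1} := by
          rcases hA with hA | ⟨d₀, hA⟩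
          · rw [hA] at he1; exact absurd he1 (by simp)
          · rw [hA] at he1 ⊢
            rw [Set.mem_singleton_iff] at he1
            rw [he1]
        refine ⟨e, e + 2, he, ?_, h2, h3.trans (hmono _ _ (by omega)), by omega, ?_⟩
        · rw [hA1, Set.mem_singleton_iff]; omega
        · intro d hd
          rw [hA1, Set.mem_singleton_iff] at hd
          omega
      · exact ⟨e, e + 1, he, he1, h2, h3, by omega, fun d _ => by omega⟩
  obtain ⟨e', f', k1, k2, k3, k4, k5, k6⟩ := key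
  obtain ⟨b, hb⟩ := h e' k1
  obtain ⟨b₁, hb₁⟩ := h f' k2
  obtain ⟨F, a1, a2, a3, a4⟩ := spread0 hr hb hb₁ k3 k4
  have h7 : cn r m * (e' + f') ≤ 2 * cn r m * s := by
    calc cn r m * (e' + f') ≤ cn r m * (2 * s) := Nat.mul_le_mul_left _ k5
      _ = 2 * cn r m * s := by ring
  exact ⟨F, a1, a2.trans h7, a3.trans (Nat.mul_le_mul_left _ (Nat.pow_le_pow_right (by omega) h7)),
    fun L _ Q hQ d hd => a4 L Q hQ d (k6 d hd)⟩

theorem exists_point0 {r : ℕ} {F : MvPolynomial (Fin r) ℤ} (hF : F ≠ 0) :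
    ∃ b : Fin r → ℚ, ev0 b F ≠ 0 := by
  by_contra hcon
  push Not at hcon
  apply map_ne_zero_of_lt hF le_rfl (L := ℚ) (Or.inl inferInstance)
  apply MvPolynomial.funext
  intro x
  rw [map_zero, MvPolynomial.eval_map]
  exact hcon x

/-- expected over one field, expected over the rational numbers -/
theorem gen_of_any {K : Type*} [Field K] {r m : ℕ} (hr : 1 ≤ r) {b : Fin r → K} {d : ℕ}
    (h : JetDim r m 0 b d) : ∃ b' : Fin r → ℚ, JetDim r m 0 b' d := by
  obtain ⟨F, h1, -, -, h2⟩ := one_degree0.{0} hr h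
  obtain ⟨b', hb'⟩ := exists_point0 h1
  have h3 := h2 ℚ b' hb'
  refine ⟨b', ?_⟩
  rcases le_total ((d + 2).choose 2) (cn r m) with h4 | h4
  · rw [min_eq_left h4, coe_Tfin, ← card_T] at h3
    exact jet_full h3 d le_rfl
  · rw [min_eq_right h4, coe_Tfin] at h3
    exact jet_indep h3 d le_rfl

/-- **the number of the zeros in a box** -/
theorem count_zeros0 {L : Type*} [Field L] [DecidableEq L] {n : ℕ} {F : MvPolynomial (Fin n) L}
    (hF : F ≠ 0) {D : ℕ} (hD : F.totalDegree ≤ D) (S : Finset L) :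
    ((Fintype.piFinset fun _ : Fin n => S).filter fun Y => MvPolynomial.eval Y F = 0).card * S.card ≤
      D * S.card ^ n := by
  classical
  rcases Nat.eq_zero_or_pos S.card with h0 | hpos
  · rw [h0, mul_zero]; exact Nat.zero_le _
  have h2 := MvPolynomial.schwartz_zippel_totalDegree hF S
  have hs : (0 : ℚ≥0) < S.card := by exact_mod_cast hpos
  rw [div_le_div_iff₀ (by positivity) hs] at h2
  have h4 : ((F.totalDegree : ℕ) : ℚ≥0) ≤ D := by exact_mod_cast hD
  have h5 : ((((Fintype.piFinset fun _ : Fin n => S).filter fun Y =>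
      MvPolynomial.eval Y F = 0).card * S.card : ℕ) : ℚ≥0) ≤ ((D * S.card ^ n : ℕ) : ℚ≥0) := by
    push_cast
    refine h2.trans ?_
    gcongr
  exact_mod_cast h5

end Pool.Agent.L7h88.CG
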