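import Mathlib
import Pool.Agent.L7h88.CG.Trans
import Pool.Agent.TH183.QS.Fin
import Pool.Agent.N388.EFC.Eleven
import Pool.Agent.TH518.CW.Fin
import Pool.Agent.TH518.CW.TwoC

set_option autoImplicit false

/-! The degrees in which one germ over the rational numbers has the expected dimension. -/

namespace Pool.Agent.L7h88.CG

open Polynomial Pool.Agent.H932R2 Pool.Agent.H932R3

/-- one germ at the origin over the rational numbers has the expected dimension -/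
def Gen (r m d : ℕ) : Prop := ∃ b : Fin r → ℚ, JetDim r m 0 b d

/-- the degrees which may be left open -/
def Win (r m d : ℕ) : Prop :=
  ¬ IsSquare r ∧ (r : ℝ) - 6 * √(r : ℝ) + 11 < m ∧
  √(r : ℝ) * m < d ∧ (d : ℝ) + 3 < √(r : ℝ) * (m + 1) ∧
  √(r : ℝ) * (2 * m + 1) ≤ 2 * (d : ℝ) + 3 + (2 / 3 + 9 / (4 * √(r : ℝ))) ∧
  2 * (d : ℝ) + 3 ≤ √(r : ℝ) * (2 * m + 1) + (2 / 3 + 1 / (4 * √(r : ℝ))) ∧
  (r = 11 → 3 ∣ d ∧ 3 * (√(r : ℝ) - 3) / (√(r : ℝ) + 3) ≤ (d : ℝ) - √(r : ℝ) * m) ∧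
  (r = 11 ∨ r = 13 → 3 ∣ d ∧ 2 * (d : ℝ) + 3 < √(r : ℝ) * (2 * m + 1))

theorem gen_of {r m d : ℕ} (h : ∃ F : MvPolynomial (Fin (r + 1)) ℚ, F ≠ 0 ∧
      ∀ (c : ℚ) (a : Fin r → ℚ), MvPolynomial.eval (Fin.cons c a : Fin (r + 1) → ℚ) F ≠ 0 →
        JetDim r m c a d) : Gen r m d := by
  obtain ⟨F, hF, hF'⟩ := h
  obtain ⟨x, hx⟩ : ∃ x : Fin (r + 1) → ℚ, MvPolynomial.eval x F ≠ 0 := by
    by_contra hcon
    push Not at hcon
    apply hF
    apply MvPolynomial.funext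
    intro x
    rw [map_zero]
    exact hcon x
  obtain ⟨b, hb⟩ := exists_origin (m := m) (x 0) (Fin.tail x)
  refine ⟨b, hb d (hF' _ _ ?_)⟩
  rw [Fin.cons_self_tail]
  exact hx

theorem gen_of_not_win {r m d : ℕ} (hr : 10 ≤ r) (h : ¬ Win r m d) : Gen r m d := by
  by_contra hG
  apply h
  have h1 : ¬ ((m : ℝ) ≤ r - 6 * √(r : ℝ) + 11 ∨ IsSquare r) := by
    intro h2
    apply hG
    obtain ⟨F, hF, hF'⟩ := Pool.Agent.TH183.QS.coll_start (m := m) hr h2 ℚ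
    exact gen_of ⟨F, hF, fun c a hc => hF' c a hc d⟩
  have h2 : ¬ ((d : ℝ) ≤ √(r : ℝ) * m ∨ √(r : ℝ) * (m + 1) ≤ d + 3) := by
    intro h2
    apply hG
    obtain ⟨F, hF, hF'⟩ := Pool.Agent.TH518.CW.coll_all (m := m) hr ℚ
    exact gen_of ⟨F, hF, fun c a hc => hF' c a hc d h2⟩
  have h3 : ¬ ((d : ℝ) < √(r : ℝ) * m ∨ √(r : ℝ) * (m + 1) < d + 3 ∨
          2 * (d : ℝ) + 3 + (2 / 3 + 9 / (4 * √(r : ℝ))) < √(r : ℝ) * (2 * m + 1) ∨
          √(r : ℝ) * (2 * m + 1) + (2 / 3 + 1 / (4 * √(r : ℝ))) < 2 * d + 3) := by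
    intro h2
    apply hG
    obtain ⟨F, hF, hF'⟩ := Pool.Agent.TH183.QS.coll_every hr m ℚ
    exact gen_of ⟨F, hF, fun c a hc => hF' c a hc d h2⟩
  push Not at h1 h2 h3
  refine ⟨h1.2, h1.1, h2.1, h2.2, h3.2.2.1, h3.2.2.2, ?_, ?_⟩
  · rintro rfl
    by_contra hcon
    apply hG
    obtain ⟨F, hF, hF'⟩ := Pool.Agent.N388.EFC.eleven_coll0 (m := m) ℚ
    refine gen_of ⟨F, hF, fun c a hc => hF' c a hc d ?_⟩
    rintro ⟨k1, k2, -⟩
    exact hcon ⟨k1, by push_cast; exact k2⟩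
  · rintro (rfl | rfl)
    · by_contra hcon
      apply hG
      obtain ⟨F, hF, hF'⟩ := Pool.Agent.TH518.CW.eleven_coll (m := m) ℚ
      refine gen_of ⟨F, hF, fun c a hc => hF' c a hc d ?_⟩
      by_contra h4
      push Not at h4
      exact hcon ⟨h4.1, h4.2.2⟩
    · by_contra hcon
      apply hG
      obtain ⟨F, hF, hF'⟩ := Pool.Agent.TH518.CW.thirteen_coll (m := m) ℚ
      refine gen_of ⟨F, hF, fun c a hc => hF' c a hc d ?_⟩
      by_contra h4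
      push Not at h4
      exact hcon ⟨h4.1, h4.2.2⟩

theorem win_unique {r m d d' : ℕ} (hr : 10 ≤ r) (h : Win r m d) (h' : Win r m d') : d = d' := by
  obtain ⟨-, -, a1, a2, a3, a4, -, -⟩ := h
  obtain ⟨-, -, b1, b2, b3, b4, -, -⟩ := h'
  have key : ∀ x y : ℕ, √(r : ℝ) * m < x → (x : ℝ) + 3 < √(r : ℝ) * (m + 1) →
      √(r : ℝ) * (2 * m + 1) ≤ 2 * (x : ℝ) + 3 + (2 / 3 + 9 / (4 * √(r : ℝ))) →
      √(r : ℝ) * m < y → (y : ℝ) + 3 < √(r : ℝ) * (m + 1) →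
      2 * (y : ℝ) + 3 ≤ √(r : ℝ) * (2 * m + 1) + (2 / 3 + 1 / (4 * √(r : ℝ))) → y ≤ x := by
    intro x y c1 c2 c3 c4 c5 c6
    by_contra hcon
    have hxy : (x : ℝ) + 1 ≤ y := by
      have : x + 1 ≤ y := by omega
      exact_mod_cast this
    rcases le_or_gt r 15 with hr' | hr'
    · have h1 : √(r : ℝ) < 4 := by
        rw [Real.sqrt_lt' (by norm_num)]
        have : (r : ℝ) ≤ 15 := by exact_mod_cast hr'
        linarith
      nlinarith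
    · have h1 : 4 ≤ √(r : ℝ) := by
        apply Real.le_sqrt_of_sq_le
        have : (16 : ℝ) ≤ r := by exact_mod_cast hr'
        linarith
      have h4 : 9 / (4 * √(r : ℝ)) ≤ 9 / 16 := by
        apply div_le_div_of_nonneg_left (by norm_num) (by norm_num); linarith
      have h5 : 1 / (4 * √(r : ℝ)) ≤ 1 / 16 := by
        apply div_le_div_of_nonneg_left (by norm_num) (by norm_num); linarith
      linarith
  exact le_antisymm (key _ _ b1 b2 b3 a1 a2 a4) (key _ _ a1 a2 a3 b1 b2 b4)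

theorem gen_large {ε : ℝ} (hε : 0 < ε) : ∃ N : ℕ, ∀ r : ℕ, N ≤ r → ∀ m d : ℕ, ¬ Gen r m d →
    |2 * (d : ℝ) + 3 - √(r : ℝ) * (2 * m + 1)| < ε := by
  obtain ⟨N, -, h⟩ := Pool.Agent.TH183.QS.coll_large.{0} hε
  refine ⟨N, fun r hr m d hG => ?_⟩
  by_contra hcon
  push Not at hcon
  apply hG
  obtain ⟨F, hF, hF'⟩ := h r hr m ℚ
  refine gen_of ⟨F, hF, fun c a hc => hF' c a hc d ?_⟩
  have e : 2 * (d : ℝ) + 3 - √(r : ℝ) - 2 * (√(r : ℝ) * m) =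
    2 * (d : ℝ) + 3 - √(r : ℝ) * (2 * m + 1) := by ring
  rw [e]
  exact hcon

end Pool.Agent.L7h88.CG
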