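import Mathlib
import Pool.Agent.L7h88.CG.CSpread
import Pool.Agent.L7h88.CG.Conf
import Pool.Agent.Y210.EF.Expo

set_option autoImplicit false

/-! The Taylor polynomials of analytic functions which satisfy no algebraic differential equation. -/

namespace Pool.Agent.L7h88.CG

open Pool.Agent.H932R2 Pool.Agent.H932R3 Pool.Agent.Y210.EF
open scoped Topology

universe u

theorem one_poly {r m d : ℕ} (hr : 1 ≤ r) (h : Gen r m d) :
    ∃ F : MvPolynomial (Fin r) ℤ, F ≠ 0 ∧ ∀ (L : Type u) [Field L] (b : Fin r → L), ev0 b F ≠ 0 →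
      JetDim r m 0 b d := by
  obtain ⟨b, hb⟩ := h
  obtain ⟨F, h1, -, -, h2⟩ := one_degree0.{u} hr hb
  refine ⟨F, h1, fun L _ b' hb' => ?_⟩
  have h3 := h2 L b' hb'
  rcases le_total ((d + 2).choose 2) (cn r m) with h4 | h4
  · rw [min_eq_left h4, coe_Tfin, ← card_T] at h3
    exact jet_full h3 d le_rfl
  · rw [min_eq_right h4, coe_Tfin] at h3
    exact jet_indep h3 d le_rfl

/-- the Taylor coefficients -/
noncomputable def tay (f : ℂ → ℂ) (r : ℕ) (c : ℂ) : Fin r → ℂ := fun l =>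
  iteratedDeriv (l : ℕ) f c / ((l : ℕ).factorial : ℂ)

/-- no algebraic differential equation -/
def NoDE (U : Set ℂ) (f : ℂ → ℂ) : Prop :=
  ∀ (N : ℕ) (P : MvPolynomial (Fin N) ℚ), P ≠ 0 →
    ∃ c ∈ U, MvPolynomial.aeval (fun l : Fin N => iteratedDeriv (l : ℕ) f c) P ≠ 0

/-- rescaling -/
noncomputable def resc {r : ℕ} (F : MvPolynomial (Fin r) ℤ) : MvPolynomial (Fin r) ℚ :=
  MvPolynomial.aeval (fun l : Fin r => MvPolynomial.C (((l : ℕ).factorial : ℚ)⁻¹) *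
    MvPolynomial.X l) F

theorem aeval_resc {L : Type*} [Field L] [Algebra ℚ L] {r : ℕ} (F : MvPolynomial (Fin r) ℤ)
    (x : Fin r → L) :
    MvPolynomial.aeval x (resc F) = ev0 (fun l : Fin r => x l / ((l : ℕ).factorial : L)) F := by
  have h : ((MvPolynomial.aeval x : MvPolynomial (Fin r) ℚ →ₐ[ℚ] L) : MvPolynomial (Fin r) ℚ →+* L).comp
      (MvPolynomial.aeval (fun l : Fin r => MvPolynomial.C (((l : ℕ).factorial : ℚ)⁻¹) *
        MvPolynomial.X l) : MvPolynomial (Fin r) ℤ →ₐ[ℤ] MvPolynomial (Fin r) ℚ).toRingHom =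
      ev0 (fun l : Fin r => x l / ((l : ℕ).factorial : L)) := by
    refine MvPolynomial.ringHom_ext (fun a => ?_) (fun l => ?_)
    · simp
    · simp [ev0]
      rw [div_eq_mul_inv, mul_comm]
  exact congrArg (fun φ : MvPolynomial (Fin r) ℤ →+* L => φ F) h

theorem resc_ne {r : ℕ} {F : MvPolynomial (Fin r) ℤ} (hF : F ≠ 0) : resc F ≠ 0 := by
  obtain ⟨b, hb⟩ := exists_point0 hF
  intro h0
  apply hb
  have h1 := aeval_resc (L := ℚ) F (fun l : Fin r => b l * ((l : ℕ).factorial : ℚ))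
  rw [h0, map_zero] at h1
  rw [h1]
  congr 1
  have : (fun l : Fin r => b l * ((l : ℕ).factorial : ℚ) / ((l : ℕ).factorial : ℚ)) = b := by
    funext l
    rw [mul_div_assoc, div_self (by exact_mod_cast (l : ℕ).factorial_ne_zero), mul_one]
  rw [this]

theorem ana_ev {U : Set ℂ} (hU : IsOpen U) {f : ℂ → ℂ} (hf : DifferentiableOn ℂ f U) {r : ℕ}
    (F : MvPolynomial (Fin r) ℤ) : AnalyticOnNhd ℂ (fun c => ev0 (tay f r c) F) U := by
  have h1 : AnalyticOnNhd ℂ f U := hf.analyticOnNhd hU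
  have h2 : ∀ l : Fin r, AnalyticOnNhd ℂ (fun c => tay f r c l) U := by
    intro l
    have h3 := h1.iterated_deriv (l : ℕ)
    have h4 : AnalyticOnNhd ℂ (iteratedDeriv (l : ℕ) f) U := by
      rw [iteratedDeriv_eq_iterate]
      exact h3
    exact h4.div analyticOnNhd_const fun c _ => by exact_mod_cast (l : ℕ).factorial_ne_zero
  have h5 := AnalyticOnNhd.aeval_mvPolynomial (𝕜 := ℂ) (A := ℤ) (B := ℂ)
    (f := fun c => tay f r c) (s := U) h2 F
  exact h5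

theorem ev_codisc {U : Set ℂ} (hU : IsOpen U) (hU' : IsPreconnected U) {f : ℂ → ℂ}
    (hf : DifferentiableOn ℂ f U) (hN : NoDE U f) {r : ℕ} {F : MvPolynomial (Fin r) ℤ}
    (hF : F ≠ 0) : {c | ev0 (tay f r c) F ≠ 0} ∈ Filter.codiscreteWithin U := by
  rcases (ana_ev hU hf F).eqOn_zero_or_eventually_ne_zero_of_preconnected hU' with h | h
  · exfalso
    obtain ⟨c, hc, hc'⟩ := hN r (resc F) (resc_ne hF)
    apply hc'
    rw [aeval_resc]
    exact h hc
  · exact h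

theorem countable_of_codisc {U S : Set ℂ} (h : S ∈ Filter.codiscreteWithin U) :
    (U \ S).Countable := by
  have h1 : IsDiscrete (Sᶜ ∩ U) := isDiscrete_of_codiscreteWithin (by rwa [compl_compl])
  have h2 : DiscreteTopology ↥(Sᶜ ∩ U) := h1.to_subtype
  have h3 : Countable ↥(Sᶜ ∩ U) :=
    TopologicalSpace.separableSpace_iff_countable.1 inferInstance
  have h4 : (Sᶜ ∩ U).Countable := h3
  rw [Set.inter_comm] at h4
  exact h4

/-- for one `r`, one `m` -/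
theorem loc_finite {U : Set ℂ} (hU : IsOpen U) (hU' : IsPreconnected U) {f : ℂ → ℂ}
    (hf : DifferentiableOn ℂ f U) (hN : NoDE U f) {r m : ℕ} (hr : 10 ≤ r) (hm : 1 ≤ m)
    {z : ℂ} (hz : z ∈ U) : ∃ t ∈ 𝓝 z,
      (t ∩ {c | c ∈ U ∧ ∃ d, ¬ (JetDim r m 0 (tay f r c) d ↔ Gen r m d)}).Finite := by
  have hsub : {d | ¬ Gen r m d}.Subsingleton := fun x hx y hy => win_unique hr
    (by_contra fun h => hx (gen_of_not_win hr h)) (by_contra fun h => hy (gen_of_not_win hr h))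
  have hc3 : 3 ≤ cn r m := by
    unfold cn
    have h1 : 1 ≤ (m + 1).choose 2 := Nat.choose_pos (by omega)
    calc 3 ≤ 10 * 1 := by norm_num
      _ ≤ r * (m + 1).choose 2 := Nat.mul_le_mul hr h1
  obtain ⟨Φ, h1, -, -, h4⟩ := spread_all0.{0} (K := ℚ) (m := m) (by omega : 1 ≤ r) hc3
    {d | ¬ Gen r m d}
    (by
      rcases hsub.eq_empty_or_singleton with h | ⟨x, h⟩
      · exact Or.inl h
      · exact Or.inr ⟨x, h⟩) (fun d hd => by
        have hd' : ¬ ¬ Gen r m d := hd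
        exact not_not.1 hd')
  have h5 := ev_codisc hU hU' hf hN h1
  rw [codiscreteWithin_iff_locallyFiniteComplementWithin] at h5
  obtain ⟨t, ht, ht'⟩ := h5 z hz
  refine ⟨t, ht, ht'.subset ?_⟩
  rintro c ⟨hc, hcU, d, hd⟩
  refine ⟨hc, hcU, fun h6 => hd ⟨fun h7 => ?_, fun h7 => ?_⟩⟩
  · exact gen_of_any (by omega) h7
  · exact h4 ℂ _ h6 d fun h8 => h8 h7

/-- for all `r`, all `m` -/
theorem countable_bad {U : Set ℂ} (hU : IsOpen U) (hU' : IsPreconnected U) {f : ℂ → ℂ}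
    (hf : DifferentiableOn ℂ f U) (hN : NoDE U f) :
    {c | c ∈ U ∧ ∃ r m d : ℕ, 1 ≤ r ∧ ¬ (JetDim r m 0 (tay f r c) d ↔ Gen r m d)}.Countable := by
  have h1 : {c | c ∈ U ∧ ∃ r m d : ℕ, 1 ≤ r ∧ ¬ (JetDim r m 0 (tay f r c) d ↔ Gen r m d)} ⊆
      ⋃ p : ℕ × ℕ × ℕ, {c | c ∈ U ∧ 1 ≤ p.1 ∧
        ¬ (JetDim p.1 p.2.1 0 (tay f p.1 c) p.2.2 ↔ Gen p.1 p.2.1 p.2.2)} := by
    rintro c ⟨hc, r, m, d, h1, h2⟩
    exact Set.mem_iUnion.2 ⟨(r, m, d), hc, h1, h2⟩
  refine (Set.countable_iUnion fun p => ?_).mono h1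
  obtain ⟨r, m, d⟩ := p
  by_cases hr : 1 ≤ r
  · by_cases hG : Gen r m d
    · obtain ⟨F, hF, hF'⟩ := one_poly.{0} hr hG
      refine (countable_of_codisc (ev_codisc hU hU' hf hN hF)).mono ?_
      rintro c ⟨hc, -, h2⟩
      refine ⟨hc, fun h3 => h2 ⟨fun _ => hG, fun _ => hF' ℂ _ h3⟩⟩
    · convert! Set.countable_empty
      rw [Set.eq_empty_iff_forall_notMem]
      rintro c ⟨-, -, h2⟩
      exact h2 ⟨fun h3 => absurd (gen_of_any hr h3) hG, fun h3 => absurd h3 hG⟩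
  · convert! Set.countable_empty
    rw [Set.eq_empty_iff_forall_notMem]
    rintro c ⟨-, h2, -⟩
    exact hr h2

end Pool.Agent.L7h88.CG
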