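import Mathlib
import Pool.Agent.L7h88.CG.Ana

set_option autoImplicit false

/-! An explicit entire function which satisfies no algebraic differential equation. -/

namespace Pool.Agent.L7h88.CG

open Pool.Agent.H932R2 Pool.Agent.H932R3 Pool.Agent.Y210.EF
open scoped Topology

theorem lin_gen {N M : ℕ} {e : Fin N → ℕ} (he : Function.Injective e) (hlt : ∀ l, e l < M) {x : ℂ}
    (hx : x ^ M = 2) (hM : 0 < M) {a : Fin N → ℚ} (h : ∑ l, (a l : ℂ) * x ^ e l = 0) : a = 0 := by
  classical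
  obtain ⟨p, hp⟩ : ∃ p : Polynomial ℚ,
      p = ∑ l : Fin N, Polynomial.C (a l) * Polynomial.X ^ e l := ⟨_, rfl⟩
  have hev : Polynomial.aeval x p = 0 := by
    rw [hp, map_sum, ← h]
    refine Finset.sum_congr rfl fun l _ => ?_
    rw [map_mul, Polynomial.aeval_C, map_pow, Polynomial.aeval_X]
    rfl
  have hmin : minpoly ℚ x = Polynomial.X ^ M - Polynomial.C 2 := by
    symm
    apply minpoly.eq_of_irreducible_of_monic (irr_X_pow_sub_two hM)
    · rw [map_sub, map_pow, Polynomial.aeval_X, Polynomial.aeval_C, hx]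
      simp
    · exact Polynomial.monic_X_pow_sub_C _ hM.ne'
  have hdvd : minpoly ℚ x ∣ p := minpoly.dvd ℚ x hev
  have hdeg : p.degree < (minpoly ℚ x).degree := by
    rw [hmin, Polynomial.degree_X_pow_sub_C hM, hp]
    refine (Polynomial.degree_sum_le _ _).trans_lt ?_
    rw [Finset.sup_lt_iff (by exact_mod_cast WithBot.bot_lt_coe M)]
    intro l _
    refine (Polynomial.degree_C_mul_X_pow_le _ _).trans_lt ?_
    exact_mod_cast hlt l
  have hp0 : p = 0 := Polynomial.eq_zero_of_dvd_of_degree_lt hdvd hdeg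
  funext l
  have h1 := congrArg (fun q => Polynomial.coeff q (e l)) hp0
  simp only [hp, Polynomial.finsetSum_coeff, Polynomial.coeff_C_mul, Polynomial.coeff_X_pow,
    Polynomial.coeff_zero] at h1
  rw [Finset.sum_eq_single l] at h1
  · simpa using h1
  · intro k _ hne
    rw [if_neg, mul_zero]
    exact fun h => hne (he h.symm)
  · intro h; exact absurd (Finset.mem_univ _) h

/-- **no polynomial relation** -/
theorem exp_gen {N M : ℕ} {e : Fin N → ℕ} (he : Function.Injective e) (hlt : ∀ l, e l < M) {x : ℂ}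
    (hx : x ^ M = 2) (hM : 0 < M) {F : MvPolynomial (Fin N) ℚ} (hF : F ≠ 0) :
    MvPolynomial.aeval (fun l : Fin N => Complex.exp (x ^ e l)) F ≠ 0 := by
  classical
  intro h0
  have hxalg : IsAlgebraic ℚ x := by
    refine ⟨Polynomial.X ^ M - Polynomial.C 2, (irr_X_pow_sub_two hM).ne_zero, ?_⟩
    rw [map_sub, map_pow, Polynomial.aeval_X, Polynomial.aeval_C, hx]
    simp
  have hsum : ∑ s ∈ F.support, ((MvPolynomial.coeff s F : ℚ) : ℂ) *
      Complex.exp (∑ l : Fin N, (s l : ℂ) * x ^ e l) = 0 := by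
    rw [← h0, MvPolynomial.aeval_def, MvPolynomial.eval₂_eq']
    refine Finset.sum_congr rfl fun s _ => ?_
    rw [Complex.exp_sum]
    congr 1
    refine Finset.prod_congr rfl fun l _ => ?_
    rw [← Complex.exp_nat_mul]
  have hLW := Pool.Agent.H340R2.LW.lindemann_weierstrass F.support
    (fun s => ∑ l : Fin N, (s l : ℂ) * x ^ e l) (fun s => ((MvPolynomial.coeff s F : ℚ) : ℂ))
    (fun s _ => ?_) (fun s _ => isAlgebraic_algebraMap (MvPolynomial.coeff s F)) ?_ hsum
  · obtain ⟨s, hs⟩ := MvPolynomial.exists_coeff_ne_zero hF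
    have h1 := hLW s (MvPolynomial.mem_support_iff.2 hs)
    exact hs (by exact_mod_cast h1)
  · refine (IsIntegral.sum _ fun l _ => ?_).isAlgebraic
    exact ((isAlgebraic_natCast (s l)).mul (hxalg.pow _)).isIntegral
  · intro s _ t _ hst
    have h1 : (fun l : Fin N => ((s l : ℚ) - (t l : ℚ))) = 0 := by
      apply lin_gen he hlt hx hM
      simp only at hst
      rw [← sub_eq_zero, ← Finset.sum_sub_distrib] at hst
      rw [← hst]
      refine Finset.sum_congr rfl fun l _ => ?_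
      push_cast
      ring
    ext l
    have h2 := congrFun h1 l
    simp only [Pi.zero_apply, sub_eq_zero] at h2
    exact_mod_cast h2

/-- the numbers `exp (2 ^ (1 / 2 ^ (l + 1)))` -/
noncomputable def al (l : ℕ) : ℝ := Real.exp ((2 : ℝ) ^ ((1 : ℝ) / 2 ^ (l + 1)))

theorem al_indep {N : ℕ} {F : MvPolynomial (Fin N) ℚ} (hF : F ≠ 0) :
    MvPolynomial.aeval (fun l : Fin N => ((al l : ℝ) : ℂ)) F ≠ 0 := by
  obtain ⟨y, hy⟩ : ∃ y : ℝ, y = (2 : ℝ) ^ ((1 : ℝ) / 2 ^ N) := ⟨_, rfl⟩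
  have hyk : ∀ l : Fin N, (2 : ℝ) ^ ((1 : ℝ) / 2 ^ ((l : ℕ) + 1)) = y ^ (2 ^ (N - 1 - l)) := by
    intro l
    have h1 : (2 : ℝ) ^ N = 2 ^ ((l : ℕ) + 1) * 2 ^ (N - 1 - l) := by
      rw [← pow_add]
      congr 1
      have := l.2
      omega
    have h5 : y ^ (2 ^ (N - 1 - (l : ℕ))) = (2 : ℝ) ^ (((1 : ℝ) / 2 ^ N) * ((2 ^ (N - 1 - (l : ℕ)) : ℕ) : ℝ)) := by
      rw [hy, Real.rpow_mul (by norm_num), Real.rpow_natCast]
    rw [h5]
    congr 1
    push_cast
    rw [h1]
    field_simp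
  have h2 : (y : ℂ) ^ (2 ^ N) = 2 := by
    have h1 : y ^ (2 ^ N) = 2 := by
      rw [hy, ← Real.rpow_natCast, ← Real.rpow_mul (by norm_num)]
      push_cast
      rw [one_div_mul_cancel (by positivity), Real.rpow_one]
    exact_mod_cast h1
  have h3 : (fun l : Fin N => ((al l : ℝ) : ℂ)) =
      fun l : Fin N => Complex.exp ((y : ℂ) ^ (2 ^ (N - 1 - (l : ℕ)))) := by
    funext l
    rw [al, hyk]
    push_cast
    rfl
  rw [h3]
  refine exp_gen (M := 2 ^ N) (e := fun l : Fin N => 2 ^ (N - 1 - (l : ℕ))) ?_ ?_ h2 (by positivity) hF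
  · intro a b hab
    have h4 := Nat.pow_right_injective (le_refl 2) hab
    have := a.2
    have := b.2
    apply Fin.ext
    omega
  · intro l
    exact Nat.pow_lt_pow_right (by norm_num) (by have := l.2; omega)

/-- the entire function -/
noncomputable def Ef (x : ℂ) : ℂ := ∑' l : ℕ, ((al l : ℝ) : ℂ) / (l.factorial : ℂ) * x ^ l

theorem al_pos (l : ℕ) : 0 < al l := Real.exp_pos _

theorem al_le (l : ℕ) : al l ≤ Real.exp 2 := by
  unfold al
  apply Real.exp_le_exp.2
  have h1 : (2 : ℝ) ^ ((1 : ℝ) / 2 ^ (l + 1)) ≤ (2 : ℝ) ^ (1 : ℝ) := by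
    apply Real.rpow_le_rpow_of_exponent_le (by norm_num)
    rw [div_le_one (by positivity)]
    exact one_le_pow₀ (by norm_num)
  rw [Real.rpow_one] at h1
  exact h1

theorem Ef_series : HasFPowerSeriesOnBall Ef
    (FormalMultilinearSeries.ofScalars ℂ (fun l : ℕ => ((al l : ℝ) : ℂ) / (l.factorial : ℂ))) 0 ⊤ := by
  obtain ⟨p, hp⟩ : ∃ p, p = FormalMultilinearSeries.ofScalars ℂ
    (fun l : ℕ => ((al l : ℝ) : ℂ) / (l.factorial : ℂ)) := ⟨_, rfl⟩
  have hrad : p.radius = ⊤ := by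
    refine FormalMultilinearSeries.radius_eq_top_of_summable_norm _ fun R => ?_
    have h1 : Summable fun l : ℕ => Real.exp 2 * ((R : ℝ) ^ l / (l.factorial : ℝ)) :=
      (Real.summable_pow_div_factorial (R : ℝ)).mul_left _
    refine h1.of_nonneg_of_le (fun l => by positivity) fun l => ?_
    have h2 : ‖p l‖ = al l / (l.factorial : ℝ) := by
      rw [hp, FormalMultilinearSeries.ofScalars_norm, norm_div, Complex.norm_real,
        Complex.norm_natCast, Real.norm_of_nonneg (al_pos l).le]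
    rw [h2]
    calc al l / (l.factorial : ℝ) * (R : ℝ) ^ l ≤ Real.exp 2 / (l.factorial : ℝ) * (R : ℝ) ^ l := by
          gcongr
          exact al_le l
      _ = Real.exp 2 * ((R : ℝ) ^ l / (l.factorial : ℝ)) := by ring
  have h3 := p.hasFPowerSeriesOnBall (by rw [hrad]; exact ENNReal.zero_lt_top)
  rw [hrad] at h3
  have h4 : p.sum = Ef := by
    funext x
    rw [hp]
    have := FormalMultilinearSeries.ofScalars_sum_eq
      (fun l : ℕ => ((al l : ℝ) : ℂ) / (l.factorial : ℂ)) x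
    unfold Ef
    rw [FormalMultilinearSeries.ofScalarsSum] at this
    rw [this]
    rfl
  rw [h4] at h3
  rw [← hp]
  exact h3

theorem Ef_diff : Differentiable ℂ Ef := by
  have h1 := Ef_series.differentiableOn
  rw [Metric.eball_top] at h1
  exact differentiableOn_univ.1 h1

theorem Ef_deriv (l : ℕ) : iteratedDeriv l Ef 0 = ((al l : ℝ) : ℂ) := by
  have h1 := Ef_series.hasFPowerSeriesAt
  have h2 := h1.analyticAt.hasFPowerSeriesAt
  have h3 := h1.eq_formalMultilinearSeries h2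
  have h4 := FormalMultilinearSeries.ofScalars_series_injective (𝕜 := ℂ) (E := ℂ) h3
  have h5 := congrFun h4 l
  have h6 : (l.factorial : ℂ) ≠ 0 := by exact_mod_cast l.factorial_ne_zero
  rw [div_left_inj' h6] at h5
  exact h5.symm

theorem tay_Ef (r : ℕ) : tay Ef r 0 = fun l : Fin r => ((al l : ℝ) : ℂ) / ((l : ℕ).factorial : ℂ) := by
  funext l
  rw [tay, Ef_deriv]

theorem Ef_aeval {N : ℕ} {P : MvPolynomial (Fin N) ℚ} (hP : P ≠ 0) :
    MvPolynomial.aeval (fun l : Fin N => iteratedDeriv (l : ℕ) Ef 0) P ≠ 0 := by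
  have h1 : (fun l : Fin N => iteratedDeriv (l : ℕ) Ef 0) = fun l : Fin N => ((al l : ℝ) : ℂ) :=
    funext fun l => Ef_deriv l
  rw [h1]
  exact al_indep hP

theorem Ef_noDE : NoDE Set.univ Ef := fun _ _ hP => ⟨0, Set.mem_univ _, Ef_aeval hP⟩

theorem Ef_zero {r m d : ℕ} (hr : 1 ≤ r) : JetDim r m 0 (tay Ef r 0) d ↔ Gen r m d := by
  constructor
  · intro h
    exact gen_of_any hr h
  · intro h
    obtain ⟨F, hF, hF'⟩ := one_poly.{0} hr h
    refine hF' ℂ _ ?_
    have h1 := Ef_aeval (resc_ne hF)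
    rw [aeval_resc] at h1
    exact h1

end Pool.Agent.L7h88.CG
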